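import Mathlib

/-!
# Edge density of total weak unit interval graphs

For every `k` there is a total weak unit interval graph with `16 k + 2` vertices and `33 k`
edges.  For `k ≥ 2` this violates the conjectured bound `|E| ≤ 2 |V| - 3`.
-/

namespace Pool.Agent.Results.MP_f51a03_co.DensityFails

open Finset

/-- `I` is a weak unit interval representation (with threshold `t > 0`) of the graph `G` with
respect to the edge-labeling that calls an edge near iff it satisfies `near`. -/
def IsWeakUnitRep {V : Type} (G : SimpleGraph V) (near : Sym2 V → Prop) (t : ℝ) (I : V → ℝ) :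
    Prop :=
  0 < t ∧ ∀ u v : V, G.Adj u v → (|I u - I v| ≤ t ↔ near s(u, v))

/-- `G` is a total weak unit interval graph. -/
def IsTotal {V : Type} (G : SimpleGraph V) : Prop :=
  ∀ near : Sym2 V → Prop, ∃ (t : ℝ) (I : V → ℝ), IsWeakUnitRep G near t I

/-! ### Computation -/

/-- codes (in base 8) of 514 placements of the seven points -/
def ordl : List Nat :=
  [1754760, 957600, 560364, 810257, 415282, 1055474, 1706586, 387744, 283955, 830368, 1620010, 1227793,
   1672489, 218337, 50869, 983906, 381346, 1619240, 878633, 1450393, 440720, 1409716, 1225266, 362922,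
   1512728, 59626, 1413426, 1594019, 473130, 142681, 1214353, 285082, 172851, 1127336, 924714, 1657432,
   1709099, 277298, 386400, 1328754, 471338, 852852, 1106154, 1742496, 1319843, 354851, 1246826, 1524376,
   641585, 1139033, 85337, 822178, 1709904, 872564, 125265, 1253483, 1453144, 174195, 743512, 842912,
   1688617, 121009, 1415218, 551019, 1579746, 1222256, 658777, 1737498, 190673, 1096746, 627116, 1753178,
   1323826, 275765, 1356194, 952497, 207193, 712929, 346024, 1249626, 1172584, 1673385, 396522, 1141448,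
   1108506, 353836, 1254120, 47530, 1650796, 1238545, 924560, 1590617, 52395, 1152424, 43827, 441616,
   691299, 1712361, 1745443, 1344819, 284067, 1627808, 394611, 1251992, 737387, 854644, 584472, 938161,
   1379609, 543641, 1393203, 157290, 1323700, 408744, 628789, 92001, 82803, 1420321, 460642, 1221528,
   625009, 1213107, 808353, 174321, 953617, 742945, 1409954, 384034, 1415344, 1512994, 723737, 1692320,
   1590953, 43939, 855337, 1747144, 942634, 1578850, 289506, 177569, 876841, 1089963, 1745688, 1451569,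
   725228, 682696, 179298, 579635, 629664, 921970, 156394, 1644328, 1520162, 1058729, 1742874, 354088,
   1361808, 277858, 348404, 813729, 727587, 1260112, 1126965, 874608, 1672300, 1705305, 473256, 92897,
   1692194, 88179, 383376, 1443505, 991585, 108913, 807604, 1326241, 656299, 1718801, 577955, 1708203,
   1618988, 56602, 442610, 791980, 1454992, 1106987, 1578220, 55090, 548065, 408618, 1412257, 1116073,
   1454257, 211729, 922677, 450842, 993825, 1713768, 1508577, 975905, 918953, 116137, 1660953, 843948,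
   146321, 420378, 959280, 1519889, 543473, 1446963, 1749664, 46452, 580643, 1614123, 983724, 643489,
   559475, 1353632, 1107498, 807730, 1258824, 1622187, 387240, 658539, 1710800, 727776, 1754200, 347032,
   1388961, 1378419, 439712, 1223880, 741923, 329525, 211617, 396186, 1238104, 445466, 740040, 576744,
   1445073, 1508451, 1395737, 738857, 692643, 1409842, 1390641, 349748, 688947, 579488, 924210, 141225,
   284466, 1354787, 481306, 1622362, 477848, 55706, 90860, 531755, 875784, 1108632, 827820, 355096,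
   214697, 1738401, 1656361, 576555, 811874, 1583897, 396018, 645169, 1114995, 1250984, 1324337, 1708378,
   877100, 960561, 1704682, 1221171, 1147573, 625961, 343084, 1455153, 1676640, 1594593, 51954, 1674001,
   1509466, 177058, 1589931, 690081, 1743000, 92267, 956816, 679000, 83881, 125601, 1171562, 1117291,
   1413538, 1139432, 1511587, 1639211, 793002, 351456, 348579, 576856, 1520736, 727083, 80801, 1749538,
   276661, 681513, 1416352, 1515801, 691425, 428442, 117929, 842786, 925813, 1693776, 1223705, 988204,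
   811692, 1426544, 1054123, 1582889, 926121, 281498, 584227, 288610, 1658979, 1344931, 153265, 218722,
   1351987, 452760, 1591961, 408114, 1742104, 1673826, 737513, 951202, 395178, 646177, 124201, 1062313,
   1659672, 1443729, 985257, 1149617, 461594, 1623083, 1064105, 645512, 695576, 1705578, 48426, 820596,
   50421, 1147818, 541611, 1517320, 1516256, 1716393, 1074857, 1394225, 59052, 1414196, 1004640, 922992,
   206633, 1524250, 975394, 989730, 704627, 107436, 154777, 1579242, 577843, 623532, 1357216, 845992,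
   1171625, 1640233, 1055978, 1581867, 346675, 1446067, 1451912, 1454642, 1213170, 1353268, 575029, 1428560,
   441504, 1519777, 1246042, 1627682, 987434, 363818, 382368, 1005585, 1448986, 473634, 285859, 1712683,
   1250347, 55475, 707784, 1725080, 1517152, 125713, 178577, 551705, 647465, 1360114, 1585836, 1363096,
   1644384, 975121, 218897, 1320865, 991529, 1222193, 1623594, 55538, 427826, 460131, 43379, 876652,
   86772, 1455496, 1754704, 445592, 1516312, 1688232, 1329041, 91945, 1446298, 1345778, 279923, 363188,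
   1623384, 988512, 1414560, 1587537, 1255961, 875553, 1003681, 1129513, 807842, 1139243, 549675, 659827,
   691481, 211113, 1587810, 48034, 989226, 844074, 443954, 1096242, 531363, 1640555, 281771, 1219792,
   387856, 707672, 727832, 877408, 959392, 928872, 1709736, 629104, 158417, 920913, 219289, 657321,
   479514, 1074010, 1360282, 387618, 1671978, 1446130, 545587, 361781, 1754312, 1457232, 452816, 957712,
   1725528, 1753752, 420504, 580888, 1742048, 1681512, 406952, 215761, 207641, 1322265, 122017, 1150121,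
   658665, 1126825, 918897, 1251866, 1704794, 281946, 1688106, 1352099, 545699, 340396]

def br (K : Nat) (k : Nat → Bool) (x : Nat) : Bool :=
  Nat.rec (motive := fun _ => Bool) false (fun n _ => k (Nat.add n (Nat.succ K)))
    (Nat.sub x K)

/-- one step of the decision tree -/
def step (a b c : Nat) (k : Nat → Bool) (m : Nat) : Bool :=
  Bool.and (br 8589934591 k (Nat.land m a)) (Bool.and (br 8589934591 k (Nat.land m b))
    (br 8589934591 k (Nat.land m c)))

def M0 : Nat := 2 ^ 547 - 1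

def A0 : Nat := 0x76ffffeeffff257a9effcf3f7f80ef29ffc38fdbbfbaed7c4f8bf67b5e49ee7f73663b9beb75ba6d7b3cb79d575e4fdfabbb479f5d99ffabe5abd3ed7cf376757fffffffe

def B0 : Nat := 0x9b86e5f09c4dedde1d5bbe1e37f77f7f3bffe3cd8cdfa97faf65dd6adfef9e5aebdd6e4ddafed9eafcb5d7bf9bdb2ab7566f97dea6ee5747ff43df7a3cccfbedfffffffd

def C0 : Nat := 0x7f4791b1f63bfba77f2a74de9cff98de0c7c71e7677717ebb57dabadf3b7179adddbed7f36da57f3d4f7eae6aee3fd74deddbee2b7f71adf9a5fee1adf3fb9cbbfffffffb

def A1 : Nat := 0x1bf4ffe6d5ff56a7fe6fc0f7f3b3bf7df91ddf47df5ee63cd3d37f9bb75df6d634cdfa1fefd4f8be3ae353af53f65e7beef46f95d5eb7db5ebb37b9bc9afd3dd7fffffff7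

def B1 : Nat := 0x64fb989d3b7ebf7fc5d13f687c6ce2f6b6fbf8fab9f979ef3e6de5f549f6fb39ebff15ed59bb6f73f75cafd9bd4fb7acb5ebfdeb3e1caf6eddddacfcf6debc76dffffffef

def C1 : Nat := 0x7f0f677bee81e9d83bbeff9f8fdf5d8b4fe627bd66a79fd3edbe9a6efeab0defdf32eff2b66f97cdcdbffc76eeb9e9d75b1f927eebf7d2db366ed7673f716fabbffffffdf

def A2 : Nat := 0x560ffff70bff99d17e3fc5db9ffdbbef1cc3db7b83d3fdddf8eb5e7e0f3df5be6b6fded9eacfeed6c7b774dbd757fd933dd5f49d97fb3a4f57bab75f76e6ddd37ffffffbf

def B2 : Nat := 0x7dff714cf5cdf7fffde13a77ea9e679fe3ff25aefc6fa272bf9deb9bfad74f4bb59abdb77577332f7e4fdf2cecfeb67cf32e6f72feb4d7fce977eba5afbb2beddffffff7f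

def C2 : Nat := 0x2bf08ebbfe326e2e83deffac7563dc70ff3cfed57fbc5faf4776b5e5f5eabaf5def5636e9fb8ddf9b9f8abf73ba94befcefb9bef694fedb3becd5cfad95df63ebfffffeff

def A3 : Nat := 0x71bbfff9dfff0e6f6e97f24bcf87c3c95ed3f3b77ee77e0eeeefd47bb3667afeb9d9bfd9ff458ffedcf2cd9feb92dd19f73ffa9734edebeacfeebbc9cf36cf7a7fffffdff

def B3 : Nat := 0x5e7c5957a747f5b5d3793db774fa7f36ffec5c4b915da3f1fb99fbf45cfbbd9fd6eef5373cfe7781bf0df6f39f7fe6ee3ae74fecfbb3dc9dbd3de4f7b4ddf1dddfffffbff

def C3 : Nat := 0x2fc7a6ae78b8fbdabdeecffcbb7dbcffa13faffcefbaddff15762f8fef9dc7616f374aeec3bbf87f63ff3b6c74ed3bf7cdd8b57bcf5e377772d35f3e7beb3ea7bfffff7ff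

def A4 : Nat := 0x79c3c9fedf9f5c3e2bd5fbdaecd793ff7ff17df777a16f3ee660b6bebf3eba8abbfc2dd66ff56f66f1dbede3e9ddd673abe3b95f7df56beadeee62de6ddeebae7ffffefff

def B4 : Nat := 0x5efcbf57b6f7aff5dc2f366577baef34a6efc64f8afebae5fbdfdfd153ff657fd527f73bb41edffdae2df3be9e2effad5f5e5fa8f6abb59de37dddebf6ad375bdffffdfff

def C4 : Nat := 0x273f76a96968f3cbf7facdbf9b6d7ccbd91ebbb8fd5fd5db1dbf696fecc1dff56edbdaeddbebb09b5ff61e5d77f329def4bde6f78b5ede773d93bf359b73dcf5bffffbfff

def A5 : Nat := 0x6ff0fffe15ffa329efa7f96723fbafbe7e5db7ff1e5e41e6e3f3ce9f3bff51dfe2ddfa5bea73d9beb935cbedcfb75abdee76c3d6dedd7d59dbb67d4fd8ebdb78fffff7fff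

def B5 : Nat := 0x35af8989ff6ffefeb4db16fcfeadfee183bfcb93e9f9fffb9f6e7979e476ff393fa34fbd5fbe3f7b46dabe9af56fe5e2d7f97d7b31ea9fe6f4ddbafcbf3e35b7dfffeffff

def C5 : Nat := 0x5a5f7677ea905dd75b7cef9bdd56515ffde27c6cf7a7be1d7c9db7e6df89aee6dd7eb5e6b5cde6c5ffef75773ad8bf5f398fbeadef37e2bf2f6bc7b367d5eecf3fffdffff

def A6 : Nat := 0x5ec9f8ff1ba65a505defeffbdef92dff4fe357f5597becfd71377a71cb3df8fe6bbfcc5f076feeecf39f6fdfda757dd2797aade9dc7b59eb4fdcaf7772bf5bb73fffbffff

def B6 : Nat := 0x7d7f974ce47dadbff2b731a5e9def79dbafcbfaae7ccbb66bfdbcfbef5d397abb653bfbbfd979b536f6fda61edafaf3f96977f36f3acbefcb737d2b9edcbed6bdfff7ffff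

def C6 : Nat := 0x23b66fb3ffdbf7efaf58de5e3727da62f51fe85fbeb7579bceecb5cf3eee6f55ddec73e4faf875bf9cf0b5be37dad2edefedd2df2fd7e717f8eb7dce9f74b6dcfffefffff

def A7 : Nat := 0x79d4c259f1f57f9f6cf8eefd2a37b9da9f5fd8f5ddfd85edd4dea33b719677cccffbe77fb3f34ef79d7af7a3fbef37367cbf8e5ea4d77fcc7ba96f7bfa1bb5ee7ffdfffff

def B7 : Nat := 0x77ff3defee7f9e7bff2f5137f5cf6faffeb127dabf5b7ebabbe5dfd48eedbb3f3cb7bc925f5ebd2b7ebdba5d7e55eec99fd4f3f17f2f95bf95f6f6e4cfe5fb17dffbfffff

def C7 : Nat := 0xe2bffb61f8ae1e493d7bfcadff8d67561eeff2f62a6fb576f3b7cefff7bccf3f34c5bedecadf3dce3c74dfe85bad9ffe36b7dafdbf8ea73ee5f999f35fe4ef9bff7fffff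

def A8 : Nat := 0x7fcdcef3bf643b57faedd8de0bb7d7dbedfdd4d945797efdfc5fb2fd53d7b5a97ddf8feb88f7c6f7b4fae4ede6ffd56d5cb6df2b8df62cfeeef7b647de9be7d6bfeffffff

def B8 : Nat := 0xababb9f57bbd4bd4d7677a7fd4879ee76cb3b76fef6cfa65fe05fdffeeb7bd6873ef35c7faa3fb95b673f77991f6bbbbb793bdd76eff70f970f6df92df79abbdfdffffff

def C8 : Nat := 0x7577756ce8dfefeab79baf79f6ffae359b36efafbb8fb15ba3bfed22ad3cce7ffae17cb7f75df94eef9ddb9a7fe0bed6e7cfe4f6fb19dbf179f8dbbef36c7d6d7fbffffff

def A9 : Nat := 0x2c4fffe9ebff9dcffe9ff1ff7fcd971a3aafbf8bc3cbdbf6d9dbc4fecf06d7b6fb599ebbefd2bfd7676cdef95f7bdbb335975db657df2eb657aef5bd576be5f37f7ffffff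

def B9 : Nat := 0x5bf6e11e15e9fbf12de62ff2c2766ef7cf7356fefd3f2c3dafbe3b2bfbfdfde907bf71ce756de86ebd9b3f4facf7bd4eeb7eeb79eeb8dbedee772b76eebd5aeedefffffff

def C9 : Nat := 0x77b91ef7fe16663ed379de0dbdbbf9edf5dce9753ef4f7cb7665ffd534fb2a5ffce6ef759abf57b9daf7e1b6f38c66fddee9b6cfb967f55bb9d9decbb9d6bf1dbdfffffff

def A10 : Nat := 0x67f8b77d1551bd1f61f2fb4473cbcdfeb6657bf995e329eef97bedee39f7bb5bc3fc7a55bbb3f968b77ced55ddef5ebc73f3fddb8ed5b97d5d67b5dcf8fda97ebbfffffff

def B10 : Nat := 0x3d57598eeebff6effecf14bfdebd3ed5fb9edfd7fb1cf7df97a73f99e72ae7ad3e4fdfbe47ee779f7ad39babf671f7cbee9c2ef775ea76e6bb9d5af75fa6d7e5d7fffffff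

def C10 : Nat := 0x5aafeef3fbee4bf09f3deffbad76f32b4dfba42e6effde316edcd277dedd5cf6fdb3a5ebfc5d8ef7cdaf76fe2b9ea9779d6fd32cfb3fcf9be6faef2ba75b7e9b6ffffffff

def c11 (_ : Nat) : Bool := true

def c10 : Nat → Bool := step A10 B10 C10 c11

def c9 : Nat → Bool := step A9 B9 C9 c10

def c8 : Nat → Bool := step A8 B8 C8 c9

def c7 : Nat → Bool := step A7 B7 C7 c8

def c6 : Nat → Bool := step A6 B6 C6 c7

def c5 : Nat → Bool := step A5 B5 C5 c6

def c4 : Nat → Bool := step A4 B4 C4 c5

def c3 : Nat → Bool := step A3 B3 C3 c4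

def c2 : Nat → Bool := step A2 B2 C2 c3

def c1 : Nat → Bool := step A1 B1 C1 c2

def c0 : Nat → Bool := step A0 B0 C0 c1

def maskl : List (Nat × Nat × Nat) :=
  [(A0, B0, C0), (A1, B1, C1), (A2, B2, C2), (A3, B3, C3), (A4, B4, C4), (A5, B5, C5), (A6, B6, C6), (A7, B7, C7), (A8, B8, C8), (A9, B9, C9), (A10, B10, C10)]

/-- the eleven triples of points -/
def Tl : List (Nat × Nat × Nat) :=
  [(0, 1, 2), (0, 1, 6), (0, 3, 4), (0, 3, 5), (1, 3, 5), (0, 5, 6), (1, 3, 4), (2, 3, 6), (2, 4, 5), (0, 1, 4), (1, 5, 6)]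

def chk (L : List (Nat × Nat × Nat)) : Nat → Bool :=
  L.foldr (fun abc k => step abc.1 abc.2.1 abc.2.2 k) (fun _ => true)

def sel (abc : Nat × Nat × Nat) (j : Fin 3) : Nat :=
  if j = 0 then abc.1 else if j = 1 then abc.2.1 else abc.2.2

lemma br_sound' {K : Nat} {k : Nat → Bool} {x : Nat} (h : br K k x = true) :
    K < x ∧ k x = true := by
  unfold br at h
  rcases hx : x - K with _ | n
  · have h' : Nat.sub x K = 0 := hx
    rw [h'] at h
    simp at h
  · have h' : Nat.sub x K = n + 1 := hx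
    rw [h'] at h
    have h2 : k (n + (K + 1)) = true := h
    have h3 : n + (K + 1) = x := by omega
    rw [h3] at h2
    exact ⟨by omega, h2⟩

lemma br_sound {k : Nat → Bool} {x : Nat} (h : br 8589934591 k x = true) :
    2 ^ 33 ≤ x ∧ k x = true := by
  obtain ⟨h1, h2⟩ := br_sound' h
  exact ⟨by omega, h2⟩

lemma step_sound {a b c : Nat} {k : Nat → Bool} {m : Nat} (h : step a b c k m = true)
    (j : Fin 3) : 2 ^ 33 ≤ m &&& sel (a, b, c) j ∧ k (m &&& sel (a, b, c) j) = true := by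
  unfold step at h
  have h1 := (Bool.and_eq_true _ _).mp h
  have h2 := (Bool.and_eq_true _ _).mp h1.2
  fin_cases j
  · exact br_sound h1.1
  · exact br_sound h2.1
  · exact br_sound h2.2

lemma exists_bit {m : Nat} (h : 2 ^ 33 ≤ m) : ∃ o, m.testBit (33 + o) = true := by
  have h1 : m / 2 ^ 33 ≠ 0 := by
    have : 0 < m / 2 ^ 33 := Nat.div_pos h (Nat.two_pow_pos 33)
    omega
  obtain ⟨o, ho⟩ := Nat.exists_testBit_of_ne_zero h1
  refine ⟨o, ?_⟩
  rw [Nat.testBit_div_two_pow] at ho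
  rwa [Nat.add_comm] at ho

lemma chk_sound : ∀ (L : List (Nat × Nat × Nat)) (m : Nat), 2 ^ 33 ≤ m → chk L m = true →
    ∀ g : ℕ → Fin 3, ∃ o, m.testBit (33 + o) = true ∧
      ∀ (i : ℕ) (h : i < L.length), (sel (L[i]) (g i)).testBit (33 + o) = true := by
  intro L
  induction L with
  | nil =>
    intro m hm _ g
    obtain ⟨o, ho⟩ := exists_bit hm
    exact ⟨o, ho, fun i h => by simp at h⟩
  | cons abc L ih =>
    intro m hm hc g
    obtain ⟨a, b, c⟩ := abc
    have hc' : step a b c (chk L) m = true := by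
      unfold chk at hc ⊢
      rw [List.foldr_cons] at hc
      exact hc
    have hs := step_sound hc' (g 0)
    obtain ⟨o, ho, hall⟩ := ih _ hs.1 hs.2 (fun i => g (i + 1))
    rw [Nat.testBit_and, Bool.and_eq_true] at ho
    refine ⟨o, ho.1, ?_⟩
    intro i hi
    cases i with
    | zero => simpa using ho.2
    | succ i =>
      have := hall i (by simpa using hi)
      simpa using this

/-- position of point `v` in the placement with code `o` -/
def pos (o v : Nat) : Nat := (o / 8 ^ v) % 8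

def nonmed (a b c : Nat) : Bool := (Nat.blt a b && Nat.blt a c) || (Nat.blt b a && Nat.blt c a)

def nonmedT (o : Nat) (t : Nat × Nat × Nat) (j : Fin 3) : Bool :=
  nonmed (pos o (sel t j)) (pos o (sel t (j + 1))) (pos o (sel t (j + 2)))

/-- the bits number `33 + i` of the masks are right for the placement `ord` -/
def okOrd (ord : Nat) (i : Nat) : Bool :=
  Nat.blt (pos ord 0) (pos ord 1) &&
  (List.zip Tl maskl).all fun tm =>
    (!(tm.2.1.testBit (33 + i)) || nonmedT ord tm.1 0) &&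
    ((!(tm.2.2.1.testBit (33 + i)) || nonmedT ord tm.1 1) &&
     (!(tm.2.2.2.testBit (33 + i)) || nonmedT ord tm.1 2))

def okAll : List Nat → Nat → Bool
  | [], _ => true
  | o :: os, i => okOrd o i && okAll os (i + 1)

lemma okAll_sound : ∀ (L : List Nat) (s : Nat), okAll L s = true →
    ∀ (i : ℕ) (h : i < L.length), okOrd (L[i]) (s + i) = true := by
  intro L
  induction L with
  | nil => intro s _ i h; simp at h
  | cons o os ih =>
    intro s hs i h
    rw [okAll, Bool.and_eq_true] at hs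
    cases i with
    | zero => simpa using hs.1
    | succ i =>
      have := ih (s + 1) hs.2 i (by simpa using h)
      simpa [Nat.add_assoc, Nat.add_comm 1 i] using this

set_option maxRecDepth 100000 in
theorem c0_true : c0 M0 = true := by decide +kernel

set_option maxRecDepth 100000 in
theorem okAll_true : okAll ordl 0 = true := by decide +kernel

lemma c0_eq : c0 = chk maskl := by
  simp only [chk, maskl, List.foldr, c0, c1, c2, c3, c4, c5, c6, c7, c8, c9, c10]
  rfl

set_option maxRecDepth 100000 in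
lemma len_ord : ordl.length = 514 := by decide +kernel

/-- the triples as functions -/
def T : Fin 11 → Fin 3 → Fin 7 :=
  ![![0, 1, 2], ![0, 1, 6], ![0, 3, 4], ![0, 3, 5], ![1, 3, 5], ![0, 5, 6], ![1, 3, 4],
    ![2, 3, 6], ![2, 4, 5], ![0, 1, 4], ![1, 5, 6]]

lemma T_eq : ∀ (t : Fin 11) (j : Fin 3), ((T t j : Fin 7) : ℕ) = sel (Tl[(t : ℕ)]'(by
    have := t.2; simp [Tl])) j := by decide

lemma T_inj : ∀ (t : Fin 11) (j j' : Fin 3), T t j = T t j' → j = j' := by decide

lemma mask_lt : (2 : ℕ) ^ 33 ≤ M0 :=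
  Nat.le_sub_one_of_lt (Nat.pow_lt_pow_right (by norm_num) (by norm_num))

lemma M0_lt : M0 < 2 ^ 547 := Nat.sub_lt (Nat.pow_pos (by norm_num)) (by norm_num)

lemma M0_bit {o : ℕ} (h : M0.testBit (33 + o) = true) : o < 514 := by
  by_contra hc
  have h1 : M0 < 2 ^ (33 + o) :=
    lt_of_lt_of_le M0_lt (Nat.pow_le_pow_right (by norm_num) (by omega))
  rw [Nat.testBit_lt_two_pow h1] at h
  simp at h

/-- The combinatorial core: whatever elements `g t` are chosen in the eleven triples, there is a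
placement of the seven points for which no chosen element is the median of its triple. -/
lemma core (g : Fin 11 → Fin 3) : ∃ p : Fin 7 → ℕ, (∀ v, p v < 8) ∧ p 0 < p 1 ∧
    ∀ t, (p (T t (g t)) < p (T t (g t + 1)) ∧ p (T t (g t)) < p (T t (g t + 2))) ∨
      (p (T t (g t + 1)) < p (T t (g t)) ∧ p (T t (g t + 2)) < p (T t (g t))) := by
  have hc : chk maskl M0 = true := by rw [← c0_eq]; exact c0_true
  obtain ⟨o, ho, hall⟩ := chk_sound maskl _ mask_lt hc
    (fun i => if h : i < 11 then g ⟨i, h⟩ else 0)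
  have ho' : o < 514 := M0_bit ho
  have hok := okAll_sound ordl 0 okAll_true o (by rw [len_ord]; exact ho')
  rw [Nat.zero_add] at hok
  unfold okOrd at hok
  rw [Bool.and_eq_true] at hok
  obtain ⟨h01, hT⟩ := hok
  rw [List.all_eq_true] at hT
  set ord := ordl[o]'(by rw [len_ord]; exact ho') with hord
  refine ⟨fun v => pos ord v, fun v => Nat.mod_lt _ (by norm_num), ?_, ?_⟩
  · exact Nat.le_of_ble_eq_true h01
  · intro t
    have ht11 : (t : ℕ) < 11 := t.2
    have hlen : (List.zip Tl maskl).length = 11 := by decide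
    have hmem : (Tl[(t : ℕ)]'(by simp [Tl]),
        maskl[(t : ℕ)]'(by simp [maskl])) ∈ List.zip Tl maskl := by
      have : (List.zip Tl maskl)[(t : ℕ)]'(by rw [hlen]; exact ht11) =
        (Tl[(t : ℕ)]'(by simp [Tl]), maskl[(t : ℕ)]'(by simp [maskl])) := by
        simp [List.getElem_zip]
      rw [← this]
      exact List.getElem_mem _
    have h3 := hT _ hmem
    rw [Bool.and_eq_true, Bool.and_eq_true] at h3
    obtain ⟨h30, h31, h32⟩ := h3
    have hbit := hall t (by simp [maskl])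
    simp only [ht11, dif_pos] at hbit
    have key : nonmedT ord (Tl[(t : ℕ)]'(by simp [Tl])) (g t) = true := by
      have hj : g t = 0 ∨ g t = 1 ∨ g t = 2 := by
        generalize g t = j
        revert j
        decide
      rcases hj with hj | hj | hj
      · rw [hj] at hbit ⊢
        rw [Bool.or_eq_true] at h30
        rcases h30 with h30 | h30
        · have hb : (maskl[(t : ℕ)]'(by simp [maskl])).1.testBit (33 + o) = true := hbit
          rw [hb] at h30
          simp at h30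
        · exact h30
      · rw [hj] at hbit ⊢
        rw [Bool.or_eq_true] at h31
        rcases h31 with h31 | h31
        · have hb : (maskl[(t : ℕ)]'(by simp [maskl])).2.1.testBit (33 + o) = true :=
            hbit
          rw [hb] at h31
          simp at h31
        · exact h31
      · rw [hj] at hbit ⊢
        rw [Bool.or_eq_true] at h32
        rcases h32 with h32 | h32
        · have hb : (maskl[(t : ℕ)]'(by simp [maskl])).2.2.testBit (33 + o) = true :=
            hbit
          rw [hb] at h32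
          simp at h32
        · exact h32
    unfold nonmedT nonmed at key
    rw [Bool.or_eq_true, Bool.and_eq_true, Bool.and_eq_true] at key
    simp only [T_eq]
    rcases key with ⟨k1, k2⟩ | ⟨k1, k2⟩
    · exact Or.inl ⟨Nat.le_of_ble_eq_true k1, Nat.le_of_ble_eq_true k2⟩
    · exact Or.inr ⟨Nat.le_of_ble_eq_true k1, Nat.le_of_ble_eq_true k2⟩

/-! ### Geometry -/

/-- Placing a vertex of degree three: if the special neighbour `a` is smaller or larger than both
other neighbours, every labeling in which the two other edges get the same label works. -/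
lemma place (a b c : ℝ) (ha : |a| ≤ 8) (hb : |b| ≤ 8) (hc : |c| ≤ 8)
    (h : (a < b ∧ a < c) ∨ (b < a ∧ c < a)) (P Q : Prop) :
    ∃ y : ℝ, (|a - y| ≤ 100 ↔ P) ∧ (|b - y| ≤ 100 ↔ Q) ∧ (|c - y| ≤ 100 ↔ Q) := by
  rw [abs_le] at ha hb hc
  have near : ∀ {u y : ℝ}, -100 ≤ u - y → u - y ≤ 100 → |u - y| ≤ 100 :=
    fun h1 h2 => abs_le.mpr ⟨h1, h2⟩
  have farL : ∀ {u y : ℝ}, u - y < -100 → ¬ |u - y| ≤ 100 := by
    intro u y h1 h2
    have := (abs_le.mp h2).1
    linarith
  have farR : ∀ {u y : ℝ}, 100 < u - y → ¬ |u - y| ≤ 100 := by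
    intro u y h1 h2
    have := (abs_le.mp h2).2
    linarith
  by_cases hP : P <;> by_cases hQ : Q
  · exact ⟨0, iff_of_true (near (by linarith) (by linarith)) hP,
      iff_of_true (near (by linarith) (by linarith)) hQ,
      iff_of_true (near (by linarith) (by linarith)) hQ⟩
  · rcases h with ⟨h1, h2⟩ | ⟨h1, h2⟩
    · exact ⟨a - 100, iff_of_true (near (by linarith) (by linarith)) hP,
        iff_of_false (farR (by linarith)) hQ, iff_of_false (farR (by linarith)) hQ⟩
    · exact ⟨a + 100, iff_of_true (near (by linarith) (by linarith)) hP,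
        iff_of_false (farL (by linarith)) hQ, iff_of_false (farL (by linarith)) hQ⟩
  · rcases h with ⟨h1, h2⟩ | ⟨h1, h2⟩
    · have m1 := min_le_left b c
      have m2 := min_le_right b c
      have m3 : a < min b c := lt_min h1 h2
      exact ⟨min b c + 100, iff_of_false (farL (by linarith)) hP,
        iff_of_true (near (by linarith) (by linarith)) hQ,
        iff_of_true (near (by linarith) (by linarith)) hQ⟩
    · have m1 := le_max_left b c
      have m2 := le_max_right b c
      have m3 : max b c < a := max_lt h1 h2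
      exact ⟨max b c - 100, iff_of_false (farR (by linarith)) hP,
        iff_of_true (near (by linarith) (by linarith)) hQ,
        iff_of_true (near (by linarith) (by linarith)) hQ⟩
  · exact ⟨1000, iff_of_false (farL (by linarith)) hP,
      iff_of_false (farL (by linarith)) hQ, iff_of_false (farL (by linarith)) hQ⟩

/-- One copy: real positions of the seven points, with points `0` and `1` at `0` and `1`, and of
the eleven vertices of degree three. -/
lemma copy (N : Fin 11 → Fin 3 → Prop) : ∃ (x : Fin 7 → ℝ) (y : Fin 11 → ℝ), x 0 = 0 ∧ x 1 = 1 ∧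
    ∀ t j, (|x (T t j) - y t| ≤ 100 ↔ N t j) := by
  classical
  have hsp : ∀ t, ∃ j : Fin 3, (N t (j + 1) ↔ N t (j + 2)) := by
    intro t
    by_cases h0 : N t 0 <;> by_cases h1 : N t 1 <;> by_cases h2 : N t 2
    · exact ⟨0, iff_of_true h1 h2⟩
    · exact ⟨2, iff_of_true h0 h1⟩
    · exact ⟨1, iff_of_true h2 h0⟩
    · exact ⟨0, iff_of_false h1 h2⟩
    · exact ⟨0, iff_of_true h1 h2⟩
    · exact ⟨1, iff_of_false h2 h0⟩
    · exact ⟨2, iff_of_false h0 h1⟩
    · exact ⟨0, iff_of_false h1 h2⟩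
  choose g hg using hsp
  obtain ⟨p, hp8, h01, hp⟩ := core g
  have hd : (1 : ℝ) ≤ (p 1 : ℝ) - (p 0 : ℝ) := by
    have : ((p 0 + 1 : ℕ) : ℝ) ≤ (p 1 : ℝ) := by exact_mod_cast h01
    push_cast at this
    linarith
  have hd0 : (0 : ℝ) < (p 1 : ℝ) - (p 0 : ℝ) := by linarith
  set x : Fin 7 → ℝ := fun v => ((p v : ℝ) - (p 0 : ℝ)) / ((p 1 : ℝ) - (p 0 : ℝ)) with hx
  have hlt : ∀ {u v : Fin 7}, p u < p v → x u < x v := by
    intro u v huv
    have : (p u : ℝ) < (p v : ℝ) := by exact_mod_cast huv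
    exact div_lt_div_of_pos_right (by linarith) hd0
  have hb : ∀ v, |x v| ≤ 8 := by
    intro v
    have h1 : (p v : ℝ) < 8 := by exact_mod_cast hp8 v
    have h2 : (p 0 : ℝ) < 8 := by exact_mod_cast hp8 0
    have h3 : (0 : ℝ) ≤ (p v : ℝ) := Nat.cast_nonneg _
    have h4 : (0 : ℝ) ≤ (p 0 : ℝ) := Nat.cast_nonneg _
    rw [hx]
    simp only
    rw [abs_div, abs_of_pos hd0, div_le_iff₀ hd0, abs_le]
    constructor <;> nlinarith
  have hpl : ∀ t, ∃ y : ℝ, (|x (T t (g t)) - y| ≤ 100 ↔ N t (g t)) ∧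
      (|x (T t (g t + 1)) - y| ≤ 100 ↔ N t (g t + 1)) ∧
      (|x (T t (g t + 2)) - y| ≤ 100 ↔ N t (g t + 1)) := by
    intro t
    refine place _ _ _ (hb _) (hb _) (hb _) ?_ _ _
    rcases hp t with ⟨h1, h2⟩ | ⟨h1, h2⟩
    · exact Or.inl ⟨hlt h1, hlt h2⟩
    · exact Or.inr ⟨hlt h1, hlt h2⟩
  choose y hy using hpl
  refine ⟨x, y, ?_, ?_, ?_⟩
  · simp [hx]
  · simp only [hx]
    exact div_self (ne_of_gt hd0)
  · intro t j
    have hj : ∀ a b : Fin 3, b = a ∨ b = a + 1 ∨ b = a + 2 := by decide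
    rcases hj (g t) j with h | h | h
    · rw [h]; exact (hy t).1
    · rw [h]; exact (hy t).2.1
    · rw [h]; exact (hy t).2.2.trans (hg t)

/-! ### The graphs -/

/-- vertices: two common points, and for each of `k` copies five further points and eleven
vertices of degree three -/
abbrev W (k : ℕ) : Type := (Fin 2 ⊕ (Fin k × Fin 5)) ⊕ (Fin k × Fin 11)

/-- point `v` of copy `i` -/
def pt {k : ℕ} (i : Fin k) (v : Fin 7) : Fin 2 ⊕ (Fin k × Fin 5) :=
  if h : (v : ℕ) < 2 then Sum.inl ⟨v, h⟩ else Sum.inr (i, ⟨v - 2, by omega⟩)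

lemma pt_inj {k : ℕ} (i : Fin k) {v w : Fin 7} (h : pt i v = pt i w) : v = w := by
  unfold pt at h
  split_ifs at h with h1 h2 h2
  · simp only [Sum.inl.injEq, Fin.mk.injEq] at h
    exact Fin.ext h
  · simp only [Sum.inr.injEq, Prod.mk.injEq, Fin.mk.injEq, true_and] at h
    exact Fin.ext (by omega)

/-- the edges -/
def ed (k : ℕ) (e : Fin k × Fin 11 × Fin 3) : Sym2 (W k) :=
  s(Sum.inl (pt e.1 (T e.2.1 e.2.2)), Sum.inr (e.1, e.2.1))

def Gr (k : ℕ) : SimpleGraph (W k) := SimpleGraph.fromEdgeSet (Set.range (ed k))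

lemma ed_inj (k : ℕ) : Function.Injective (ed k) := by
  rintro ⟨i, t, j⟩ ⟨i', t', j'⟩ h
  unfold ed at h
  simp only [Sym2.eq_iff, Sum.inl.injEq, Sum.inr.injEq, Prod.mk.injEq, reduceCtorEq, false_and,
    or_false] at h
  obtain ⟨h1, rfl, rfl⟩ := h
  have h2 := pt_inj i h1
  have h3 := T_inj t j j' h2
  rw [h3]

lemma edgeSet_Gr (k : ℕ) : (Gr k).edgeSet = Set.range (ed k) := by
  unfold Gr
  rw [SimpleGraph.edgeSet_fromEdgeSet]
  rw [sdiff_eq_left, Set.disjoint_left]
  rintro _ ⟨⟨i, t, j⟩, rfl⟩ hd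
  simp [ed] at hd

lemma card_edges (k : ℕ) : (Gr k).edgeSet.ncard = 33 * k := by
  rw [edgeSet_Gr, ← Set.image_univ, Set.ncard_image_of_injective _ (ed_inj k), Set.ncard_univ,
    Nat.card_eq_fintype_card]
  simp only [Fintype.card_prod, Fintype.card_fin]
  ring

lemma card_W (k : ℕ) : Fintype.card (W k) = 16 * k + 2 := by
  simp only [W, Fintype.card_sum, Fintype.card_prod, Fintype.card_fin]
  ring

lemma total_Gr (k : ℕ) : IsTotal (Gr k) := by
  intro near
  have hc : ∀ i : Fin k, ∃ (x : Fin 7 → ℝ) (y : Fin 11 → ℝ), x 0 = 0 ∧ x 1 = 1 ∧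
      ∀ t j, (|x (T t j) - y t| ≤ 100 ↔ near (ed k (i, t, j))) := fun i => copy _
  choose x y h0 h1 hxy using hc
  set P : Fin 2 ⊕ (Fin k × Fin 5) → ℝ := Sum.elim (fun a => (a : ℕ)) (fun q => x q.1 ⟨q.2 + 2, by omega⟩)
    with hP
  have hpt : ∀ (i : Fin k) (v : Fin 7), P (pt i v) = x i v := by
    intro i v
    unfold pt
    split_ifs with h
    · simp only [hP, Sum.elim_inl]
      have : v = 0 ∨ v = 1 := by
        rcases Nat.lt_or_ge (v : ℕ) 1 with h' | h'
        · exact Or.inl (Fin.ext (by simp; omega))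
        · exact Or.inr (Fin.ext (by simp; omega))
      rcases this with rfl | rfl
      · simp [h0]
      · simp [h1]
    · simp only [hP, Sum.elim_inr]
      congr 1
      exact Fin.ext (by simp; omega)
  refine ⟨100, Sum.elim P (fun q => y q.1 q.2), by norm_num, ?_⟩
  intro u v huv
  have he : s(u, v) ∈ Set.range (ed k) := by
    rw [← edgeSet_Gr]; exact huv
  obtain ⟨⟨i, t, j⟩, he⟩ := he
  have hk := hxy i t j
  rw [← he]
  unfold ed at he
  simp only at he
  rw [Sym2.eq_iff] at he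
  rcases he with ⟨rfl, rfl⟩ | ⟨rfl, rfl⟩
  · simp only [Sum.elim_inl, Sum.elim_inr, hpt]
    exact hk
  · simp only [Sum.elim_inl, Sum.elim_inr, hpt]
    rw [abs_sub_comm]
    exact hk

/-- **Main theorem.**  For every `k` there is a total weak unit interval graph with `16 k + 2`
vertices and `33 k` edges; consequently the bound `|E| ≤ 2 |V| - 3` fails. -/
theorem result :
    (∀ k : ℕ, ∃ (V : Type) (_ : Fintype V) (G : SimpleGraph V), IsTotal G ∧
      Fintype.card V = 16 * k + 2 ∧ G.edgeSet.ncard = 33 * k) ∧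
    (∃ (V : Type) (_ : Fintype V) (G : SimpleGraph V), IsTotal G ∧ 2 ≤ Fintype.card V ∧
      2 * Fintype.card V - 2 ≤ G.edgeSet.ncard) ∧
    ¬ (∀ (V : Type) [Fintype V] (G : SimpleGraph V), IsTotal G → 2 ≤ Fintype.card V →
      (G.edgeSet.ncard : ℤ) ≤ 2 * (Fintype.card V : ℤ) - 3) := by
  refine ⟨fun k => ⟨W k, inferInstance, Gr k, total_Gr k, card_W k, card_edges k⟩,
    ⟨W 2, inferInstance, Gr 2, total_Gr 2, ?_, ?_⟩, ?_⟩
  · rw [card_W]; norm_num
  · rw [card_W, card_edges]
  · intro h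
    have := h (W 2) (Gr 2) (total_Gr 2) (by rw [card_W]; norm_num)
    rw [card_W, card_edges] at this
    norm_num at this

end Pool.Agent.Results.MP_f51a03_co.DensityFails
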